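import Mathlib

/-!
Switching of the cube function, part 2: coefficients of additive maps and of alternating
trilinear maps with values in the prime field.
-/

set_option autoImplicit false

namespace Pool.Agent.Lib.MP_eacabd_co

open Finset

section Coef

variable {F : Type} [Field F] [Fintype F] [DecidableEq F] [CharP F 2]

/-- the trace sum -/
def tr (n : ℕ) (w : F) : F := ∑ i ∈ range n, w ^ (2 ^ i)

theorem pow_card' {n : ℕ} (hF : Fintype.card F = 2 ^ n) (w : F) : w ^ (2 ^ n) = w := by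
  rw [← hF]; exact FiniteField.pow_card w

theorem tr_sq {n : ℕ} (hF : Fintype.card F = 2 ^ n) (w : F) : tr n w ^ 2 = tr n w := by
  have h1 : tr n w ^ 2 = ∑ i ∈ range n, w ^ (2 ^ (i + 1)) := by
    rw [tr, sum_pow_char]
    refine sum_congr rfl fun i _ ↦ ?_
    rw [← pow_mul, pow_succ]
  have h2 : ∑ i ∈ range (n + 1), w ^ (2 ^ i) = ∑ i ∈ range n, w ^ (2 ^ (i + 1)) + w ^ (2 ^ 0) :=
    sum_range_succ' _ _
  have h3 : ∑ i ∈ range (n + 1), w ^ (2 ^ i) = ∑ i ∈ range n, w ^ (2 ^ i) + w ^ (2 ^ n) :=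
    sum_range_succ _ _
  rw [pow_card' hF, h2, pow_zero, pow_one] at h3
  rw [h1, tr]
  exact add_right_cancel h3

theorem zero_or_one_of_sq {a : F} (h : a ^ 2 = a) : a = 0 ∨ a = 1 := by
  have : a * (a - 1) = 0 := by ring_nf; rw [h]; ring
  rcases mul_eq_zero.mp this with h | h
  · exact Or.inl h
  · exact Or.inr (sub_eq_zero.mp h)

/-- the sum over the units of `y (x / y)^(2^i)` -/
theorem sum_units {n : ℕ} (hF : Fintype.card F = 2 ^ n) (x : F) :
    ∑ y : Fˣ, (y : F) * tr n (x * ((y⁻¹ : Fˣ) : F)) = x := by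
  classical
  have hn : 0 < n := by
    rcases Nat.eq_zero_or_pos n with h | h
    · rw [h, pow_zero] at hF
      have := Fintype.one_lt_card (α := F)
      omega
    · exact h
  have e1 : ∑ y : Fˣ, (y : F) * tr n (x * ((y⁻¹ : Fˣ) : F)) =
      ∑ i ∈ range n, x ^ (2 ^ i) * ∑ y : Fˣ, (y : F) * ((y⁻¹ : Fˣ) : F) ^ (2 ^ i) := by
    simp only [tr, mul_sum]
    rw [sum_comm]
    refine sum_congr rfl fun i _ ↦ sum_congr rfl fun y _ ↦ ?_
    rw [mul_pow]
    ring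
  have hq : Fintype.card F - 1 = 2 ^ n - 1 := by rw [hF]
  rw [e1, ← Nat.sub_add_cancel (show 1 ≤ n from hn), sum_range_succ']
  have e2 : ∀ i ∈ range (n - 1), x ^ (2 ^ (i + 1)) *
      ∑ y : Fˣ, (y : F) * ((y⁻¹ : Fˣ) : F) ^ (2 ^ (i + 1)) = 0 := by
    intro i hi
    have hi' := mem_range.mp hi
    have h1 : ∑ y : Fˣ, (y : F) * ((y⁻¹ : Fˣ) : F) ^ (2 ^ (i + 1)) =
        ∑ y : Fˣ, ((y : F)) ^ (2 ^ (i + 1) - 1) := by
      refine Fintype.sum_equiv (Equiv.inv Fˣ) _ _ fun y ↦ ?_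
      have h2 : 2 ^ (i + 1) = (2 ^ (i + 1) - 1) + 1 := by
        have := Nat.one_le_two_pow (n := i + 1)
        omega
      have hy : (y : F) ≠ 0 := y.ne_zero
      conv_lhs => rw [h2]
      rw [pow_succ, Equiv.inv_apply, mul_comm (((y⁻¹ : Fˣ) : F) ^ (2 ^ (i + 1) - 1)), ← mul_assoc,
        Units.mul_inv, one_mul]
    rw [h1]
    have h3 := FiniteField.sum_pow_units (K := F) (2 ^ (i + 1) - 1)
    have h4 : ¬ (Fintype.card F - 1 ∣ 2 ^ (i + 1) - 1) := by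
      intro hd
      have h5 : 2 ≤ 2 ^ (i + 1) := by
        calc 2 = 2 ^ 1 := rfl
          _ ≤ 2 ^ (i + 1) := Nat.pow_le_pow_right (by norm_num) (by omega)
      have h6 := Nat.le_of_dvd (by omega) hd
      have h7 : 2 ^ (i + 1) < 2 ^ n := Nat.pow_lt_pow_right (by norm_num) (by omega)
      rw [hF] at h6
      omega
    rw [if_neg h4] at h3
    have h8 : ∑ y : Fˣ, ((y : F)) ^ (2 ^ (i + 1) - 1) = 0 := by
      rw [← h3]
    rw [h8, mul_zero]
  rw [sum_eq_zero e2, zero_add, pow_zero, pow_one]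
  have e3 : ∑ y : Fˣ, (y : F) * ((y⁻¹ : Fˣ) : F) ^ 1 = 1 := by
    have h1 : ∀ y : Fˣ, (y : F) * ((y⁻¹ : Fˣ) : F) ^ 1 = 1 := by
      intro y; simp
    simp only [h1, sum_const, card_univ, nsmul_eq_mul, mul_one]
    rw [Fintype.card_units, hF]
    have h2 : ((2 ^ n - 1 : ℕ) : F) = 1 := by
      obtain ⟨m, hm⟩ : ∃ m, 2 ^ n - 1 = 2 * m + 1 := by
        obtain ⟨k, rfl⟩ : ∃ k, n = k + 1 := ⟨n - 1, by omega⟩
        have := Nat.one_le_two_pow (n := k)
        exact ⟨2 ^ k - 1, by rw [pow_succ]; omega⟩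
      rw [hm]
      push_cast
      rw [CharTwo.two_eq_zero]
      ring
    exact h2
  rw [e3, mul_one]

/-- the coefficient of `x^(2^i)` -/
def cf (φ : F → F) (i : ℕ) : F := ∑ y : Fˣ, φ y * ((y⁻¹ : Fˣ) : F) ^ (2 ^ i)

/-- additive maps are linearised polynomials -/
theorem additive_eq {n : ℕ} (hF : Fintype.card F = 2 ^ n) {φ : F → F}
    (hφ : ∀ x y, φ (x + y) = φ x + φ y) (x : F) :
    φ x = ∑ i ∈ range n, cf φ i * x ^ (2 ^ i) := by
  have h0 : φ 0 = 0 := by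
    have := hφ 0 0
    rw [add_zero] at this
    exact (add_eq_left.mp this.symm)
  let ψ : F →+ F := ⟨⟨φ, h0⟩, hφ⟩
  have e1 : ∑ i ∈ range n, cf φ i * x ^ (2 ^ i) =
      ∑ y : Fˣ, φ y * tr n (x * ((y⁻¹ : Fˣ) : F)) := by
    simp only [cf, tr, sum_mul, mul_sum]
    rw [sum_comm]
    refine sum_congr rfl fun y _ ↦ sum_congr rfl fun i _ ↦ ?_
    rw [mul_pow]
    ring
  have e2 : ∀ y : Fˣ, φ y * tr n (x * ((y⁻¹ : Fˣ) : F)) =
      φ ((y : F) * tr n (x * ((y⁻¹ : Fˣ) : F))) := by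
    intro y
    rcases zero_or_one_of_sq (tr_sq hF (x * ((y⁻¹ : Fˣ) : F))) with h | h
    · rw [h, mul_zero, mul_zero, h0]
    · rw [h, mul_one, mul_one]
  rw [e1, sum_congr rfl fun y _ ↦ e2 y]
  have e3 : ∑ y : Fˣ, φ ((y : F) * tr n (x * ((y⁻¹ : Fˣ) : F))) =
      ψ (∑ y : Fˣ, (y : F) * tr n (x * ((y⁻¹ : Fˣ) : F))) := by
    rw [map_sum]
    rfl
  rw [e3, sum_units hF]
  rfl

end Coef

end Pool.Agent.Lib.MP_eacabd_co
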