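import Mathlib

/-!
Switching of the cube function, part 1: derivatives in characteristic two.
-/

set_option autoImplicit false

namespace Pool.Agent.Lib.MP_eacabd_co

section Deriv

variable {F : Type} [Field F] [CharP F 2]

/-- the derivative in direction `a` -/
def D (a : F) (f : F → F) : F → F := fun x => f (x + a) + f x

theorem D_zero (f : F → F) : D 0 f = 0 := by
  funext x
  simp [D, CharTwo.add_self_eq_zero]

theorem D_of_zero (a : F) : D a (0 : F → F) = 0 := by
  funext x
  simp [D]

theorem D_comm (a b : F) (f : F → F) : D a (D b f) = D b (D a f) := by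
  funext x
  simp only [D]
  rw [show x + a + b = x + b + a by ring]
  ring

theorem D_self (a : F) (f : F → F) : D a (D a f) = 0 := by
  funext x
  simp only [D, Pi.zero_apply]
  have h : x + a + a = x := by
    rw [add_assoc, CharTwo.add_self_eq_zero, add_zero]
  rw [h]
  have e : f x + f (x + a) + (f (x + a) + f x) = (f x + f x) + (f (x + a) + f (x + a)) := by ring
  rw [e, CharTwo.add_self_eq_zero, CharTwo.add_self_eq_zero, add_zero]

theorem D_add (a b : F) (f : F → F) (x : F) :
    D (a + b) f x = D a f x + D b f x + D a (D b f) x := by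
  simp only [D]
  have two : (2 : F) = 0 := CharTwo.two_eq_zero
  rw [show x + (a + b) = x + a + b by ring]
  linear_combination (-(f (x + a)) - f (x + b) - f x) * two

/-- iterated derivative -/
def DL (l : List F) (f : F → F) : F → F := l.foldr D f

theorem DL_cons (a : F) (l : List F) (f : F → F) : DL (a :: l) f = D a (DL l f) := rfl

theorem DL_perm {l l' : List F} (h : l.Perm l') (f : F → F) : DL l f = DL l' f := by
  induction h with
  | nil => rfl
  | cons x _ ih => rw [DL_cons, DL_cons, ih]
  | swap x y l => rw [DL_cons, DL_cons, DL_cons, DL_cons, D_comm]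
  | trans _ _ ih1 ih2 => rw [ih1, ih2]

theorem DL_zero (l : List F) : DL l (0 : F → F) = 0 := by
  induction l with
  | nil => rfl
  | cons a l ih => rw [DL_cons, ih, D_of_zero]

/-- long products of derivatives vanish (pigeonhole) -/
theorem DL_long [Fintype F] (l : List F) (hl : Fintype.card F ≤ l.length) (f : F → F) :
    DL l f = 0 := by
  classical
  by_cases h0 : (0 : F) ∈ l
  · obtain ⟨l1, l2, rfl⟩ := List.append_of_mem h0
    have hp : (l1 ++ 0 :: l2).Perm (0 :: (l1 ++ l2)) := List.perm_middle
    rw [DL_perm hp, DL_cons, D_zero]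
  by_cases hd : l.Nodup
  · exfalso
    have h1 : l.toFinset.card = l.length := List.toFinset_card_of_nodup hd
    have h2 : l.toFinset ⊆ Finset.univ.erase (0 : F) := by
      intro x hx
      rw [Finset.mem_erase]
      refine ⟨?_, Finset.mem_univ _⟩
      rintro rfl
      exact h0 (List.mem_toFinset.mp hx)
    have h3 := Finset.card_le_card h2
    rw [Finset.card_erase_of_mem (Finset.mem_univ _), Finset.card_univ, h1] at h3
    have h4 : 0 < Fintype.card F := Fintype.card_pos
    omega
  · rw [← List.exists_duplicate_iff_not_nodup] at hd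
    obtain ⟨x, hx⟩ := hd
    rw [List.duplicate_iff_sublist] at hx
    obtain ⟨l', hl'⟩ : ∃ l', l.Perm (x :: x :: l') := by
      have := hx.subperm
      obtain ⟨l', h'⟩ := List.Sublist.exists_perm_append hx
      exact ⟨l', by simpa using h'⟩
    rw [DL_perm hl', DL_cons, DL_cons, D_self]

end Deriv

end Pool.Agent.Lib.MP_eacabd_co
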