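import Pool.Agent.Lib.MP_eacabd_co.Coef

/-!
Switching of the cube function, part 3: alternating trilinear maps with values in the prime field
and their coefficients.
-/

set_option autoImplicit false

namespace Pool.Agent.Lib.MP_eacabd_co

open Finset

section Tri

variable {F : Type} [Field F] [Fintype F] [DecidableEq F] [CharP F 2]

/-- an alternating trilinear map with values in the prime field -/
structure Tri (T : F → F → F → F) : Prop where
  add : ∀ x x' y z, T (x + x') y z = T x y z + T x' y z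
  s12 : ∀ x y z, T x y z = T y x z
  s23 : ∀ x y z, T x y z = T x z y
  alt : ∀ x z, T x x z = 0
  sq : ∀ x y z, T x y z ^ 2 = T x y z

/-- the coefficients -/
def t (T : F → F → F → F) (i j k : ℕ) : F :=
  ∑ x : Fˣ, ∑ y : Fˣ, ∑ z : Fˣ, T x y z * ((x⁻¹ : Fˣ) : F) ^ (2 ^ i) *
    ((y⁻¹ : Fˣ) : F) ^ (2 ^ j) * ((z⁻¹ : Fˣ) : F) ^ (2 ^ k)

theorem sum_symm_zero {ι : Type} [Fintype ι] [DecidableEq ι] (g : ι → ι → F)
    (h1 : ∀ x y, g x y = g y x) (h2 : ∀ x, g x x = 0) : ∑ x, ∑ y, g x y = 0 := by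
  rw [← sum_product']
  refine sum_involution (fun p _ ↦ (p.2, p.1)) ?_ ?_ ?_ ?_
  · intro p _
    show g p.1 p.2 + g p.2 p.1 = 0
    rw [h1 p.2 p.1, CharTwo.add_self_eq_zero]
  · intro p _ hp hc
    apply hp
    have : p.1 = p.2 := (congrArg Prod.snd hc)
    show g p.1 p.2 = 0
    rw [this, h2]
  · intro p _
    simp
  · intro p _
    rfl

variable {T : F → F → F → F}

theorem t_s12 (hT : Tri T) (i j k : ℕ) : t T i j k = t T j i k := by
  unfold t
  rw [sum_comm]
  refine sum_congr rfl fun x _ ↦ sum_congr rfl fun y _ ↦ sum_congr rfl fun z _ ↦ ?_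
  rw [hT.s12]
  ring

theorem t_s23 (hT : Tri T) (i j k : ℕ) : t T i j k = t T i k j := by
  unfold t
  refine sum_congr rfl fun x _ ↦ ?_
  rw [sum_comm]
  refine sum_congr rfl fun y _ ↦ sum_congr rfl fun z _ ↦ ?_
  rw [hT.s23]
  ring

theorem t_alt (hT : Tri T) (i k : ℕ) : t T i i k = 0 := by
  unfold t
  refine sum_symm_zero _ ?_ ?_
  · intro x y
    refine sum_congr rfl fun z _ ↦ ?_
    rw [hT.s12]
    ring
  · intro x
    refine sum_eq_zero fun z _ ↦ ?_
    rw [hT.alt]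
    ring

theorem t_sq (hT : Tri T) (i j k : ℕ) : t T i j k ^ 2 = t T (i + 1) (j + 1) (k + 1) := by
  unfold t
  rw [sum_pow_char]
  refine sum_congr rfl fun x _ ↦ ?_
  rw [sum_pow_char]
  refine sum_congr rfl fun y _ ↦ ?_
  rw [sum_pow_char]
  refine sum_congr rfl fun z _ ↦ ?_
  rw [mul_pow, mul_pow, mul_pow, hT.sq, ← pow_mul, ← pow_mul, ← pow_mul, ← pow_succ, ← pow_succ,
    ← pow_succ]

theorem t_per {n : ℕ} (hF : Fintype.card F = 2 ^ n) (i j k : ℕ) :
    t T (i + n) j k = t T i j k := by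
  unfold t
  refine sum_congr rfl fun x _ ↦ sum_congr rfl fun y _ ↦ sum_congr rfl fun z _ ↦ ?_
  have : ((x⁻¹ : Fˣ) : F) ^ (2 ^ (i + n)) = ((x⁻¹ : Fˣ) : F) ^ (2 ^ i) := by
    rw [pow_add, pow_mul]
    exact pow_card' hF _
  rw [this]

theorem t_pow (hT : Tri T) (i j k s : ℕ) : t T i j k ^ (2 ^ s) = t T (i + s) (j + s) (k + s) := by
  induction s with
  | zero => simp
  | succ s ih =>
    rw [pow_succ, pow_mul, ih, t_sq hT]
    rfl

theorem t_per2 {n : ℕ} (hF : Fintype.card F = 2 ^ n) (hT : Tri T) (i j k : ℕ) :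
    t T i (j + n) k = t T i j k := by
  rw [t_s12 hT, t_per hF, t_s12 hT]

theorem t_per3 {n : ℕ} (hF : Fintype.card F = 2 ^ n) (hT : Tri T) (i j k : ℕ) :
    t T i j (k + n) = t T i j k := by
  rw [t_s23 hT, t_per2 hF hT, t_s23 hT]

/-- additivity of the coefficient functional -/
theorem cf_add (φ ψ : F → F) (i : ℕ) : cf (fun x ↦ φ x + ψ x) i = cf φ i + cf ψ i := by
  unfold cf
  rw [← sum_add_distrib]
  refine sum_congr rfl fun x _ ↦ ?_
  ring

/-- the coefficient of `z^(2^k)` -/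
theorem cf_eq {n : ℕ} (hF : Fintype.card F = 2 ^ n) (hT : Tri T) (x y : F) (k : ℕ) :
    cf (T x y) k = ∑ i ∈ range n, ∑ j ∈ range n, t T i j k * x ^ (2 ^ i) * y ^ (2 ^ j) := by
  have hx : ∀ y x x', cf (T (x + x') y) k = cf (T x y) k + cf (T x' y) k := by
    intro y x x'
    rw [← cf_add]
    congr 1
    funext z
    exact hT.add _ _ _ _
  have e1 := additive_eq hF (φ := fun x ↦ cf (T x y) k) (fun x x' ↦ hx y x x') x
  have e1' : cf (T x y) k = ∑ i ∈ range n, cf (fun x ↦ cf (T x y) k) i * x ^ (2 ^ i) := e1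
  rw [e1']
  refine sum_congr rfl fun i _ ↦ ?_
  have hy : ∀ y y', cf (fun x ↦ cf (T x (y + y')) k) i =
      cf (fun x ↦ cf (T x y) k) i + cf (fun x ↦ cf (T x y') k) i := by
    intro y y'
    rw [← cf_add]
    congr 1
    funext x
    rw [← cf_add]
    congr 1
    funext z
    rw [hT.s12, hT.add, hT.s12 y, hT.s12 y']
  have e2 := additive_eq hF (φ := fun y ↦ cf (fun x ↦ cf (T x y) k) i) (fun y y' ↦ hy y y') y
  have e2' : cf (fun x ↦ cf (T x y) k) i =
      ∑ j ∈ range n, cf (fun y ↦ cf (fun x ↦ cf (T x y) k) i) j * y ^ (2 ^ j) := e2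
  rw [e2', sum_mul]
  refine sum_congr rfl fun j _ ↦ ?_
  have e3 : cf (fun y ↦ cf (fun x ↦ cf (T x y) k) i) j = t T i j k := by
    unfold t
    rw [sum_comm]
    unfold cf
    refine sum_congr rfl fun y _ ↦ ?_
    rw [sum_mul]
    refine sum_congr rfl fun x _ ↦ ?_
    rw [sum_mul, sum_mul]
    refine sum_congr rfl fun z _ ↦ ?_
    ring
  rw [e3]
  ring

/-- if all coefficients vanish then the map vanishes -/
theorem eq_zero_of_t {n : ℕ} (hF : Fintype.card F = 2 ^ n) (hT : Tri T)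
    (h : ∀ i < n, ∀ j < n, ∀ k < n, t T i j k = 0) (x y z : F) : T x y z = 0 := by
  have hz : ∀ z z', T x y (z + z') = T x y z + T x y z' := by
    intro z z'
    rw [hT.s23, hT.s12, hT.add, hT.s12 z, hT.s12 z', hT.s23 x z, hT.s23 x z']
  rw [additive_eq hF hz z]
  refine sum_eq_zero fun k hk ↦ ?_
  rw [cf_eq hF hT, sum_eq_zero, zero_mul]
  intro i hi
  refine sum_eq_zero fun j hj ↦ ?_
  rw [h i (mem_range.mp hi) j (mem_range.mp hj) k (mem_range.mp hk)]
  ring

end Tri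

end Pool.Agent.Lib.MP_eacabd_co
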