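import Mathlib

/-!
Switching of the cube function, part 4: continuants.
-/

set_option autoImplicit false

namespace Pool.Agent.Lib.MP_eacabd_co

open Finset Polynomial

section Cont

variable {F : Type} [Field F]

/-- the continuants in `c, c^2, c^4, ...` -/
noncomputable def K (u : F) (i : ℕ) : ℕ → F[X]
  | 0 => 0
  | 1 => 1
  | (m + 2) => X ^ (2 ^ (i + m)) * K u i (m + 1) + C (u ^ (2 ^ (i + m))) * K u i m

theorem K_zero (u : F) (i : ℕ) : K u i 0 = 0 := rfl

theorem K_one (u : F) (i : ℕ) : K u i 1 = 1 := rfl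

theorem K_succ (u : F) (i m : ℕ) :
    K u i (m + 2) = X ^ (2 ^ (i + m)) * K u i (m + 1) + C (u ^ (2 ^ (i + m))) * K u i m := rfl

theorem frob4 [CharP F 2] {a b c u : F} (hu : a * b * (a + b) = u)
    (hc : a ^ 2 + a * b + b ^ 2 = c) (j : ℕ) :
    a ^ (2 ^ (j + 2)) = c ^ (2 ^ j) * a ^ (2 ^ (j + 1)) + u ^ (2 ^ j) * a ^ (2 ^ j) := by
  have two : (2 : F) = 0 := CharTwo.two_eq_zero
  have h : a ^ 4 = c * a ^ 2 + u * a := by
    rw [← hu, ← hc]
    linear_combination (-(a ^ 3 * b) - a ^ 2 * b ^ 2) * two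
  calc a ^ (2 ^ (j + 2)) = (a ^ 4) ^ (2 ^ j) := by rw [← pow_mul]; congr 1; ring
    _ = (c * a ^ 2 + u * a) ^ (2 ^ j) := by rw [h]
    _ = (c * a ^ 2) ^ (2 ^ j) + (u * a) ^ (2 ^ j) := add_pow_char_pow _ _ _ _
    _ = _ := by
      rw [mul_pow, mul_pow, ← pow_mul]
      congr 3
      ring

theorem K_eval [CharP F 2] {a b c u : F} (hu : a * b * (a + b) = u)
    (hc : a ^ 2 + a * b + b ^ 2 = c) (i m : ℕ) :
    a ^ (2 ^ i) * b ^ (2 ^ (i + m)) + a ^ (2 ^ (i + m)) * b ^ (2 ^ i) =
      u ^ (2 ^ i) * (K u i m).eval c := by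
  have two : (2 : F) = 0 := CharTwo.two_eq_zero
  have hu' : b * a * (b + a) = u := by rw [← hu]; ring
  have hc' : b ^ 2 + b * a + a ^ 2 = c := by rw [← hc]; ring
  induction m using Nat.strong_induction_on with
  | _ m ih =>
    match m, ih with
    | 0, _ =>
      rw [K_zero, eval_zero, mul_zero, add_zero]
      linear_combination (a ^ (2 ^ i) * b ^ (2 ^ i)) * two
    | 1, _ =>
      rw [K_one, eval_one, mul_one, ← hu]
      have e : a * b * (a + b) = a * b ^ 2 + a ^ 2 * b := by ring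
      rw [e, add_pow_char_pow, mul_pow, mul_pow, ← pow_mul, ← pow_mul]
      ring
    | (m + 2), ih =>
      have h1 := ih (m + 1) (by omega)
      have h0 := ih m (by omega)
      have ea := frob4 hu hc (i + m)
      have eb := frob4 hu' hc' (i + m)
      have e2 : i + (m + 2) = i + m + 2 := by ring
      have e1 : i + (m + 1) = i + m + 1 := by ring
      rw [e2, K_succ, eval_add, eval_mul, eval_mul, eval_pow, eval_X, eval_C, ea, eb]
      rw [e1] at h1
      linear_combination (c ^ (2 ^ (i + m))) * h1 + (u ^ (2 ^ (i + m))) * h0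

theorem K_monic (u : F) (i m : ℕ) :
    (K u i (m + 1)).Monic ∧ (K u i (m + 1)).natDegree = 2 ^ (i + m) - 2 ^ i := by
  induction m using Nat.strong_induction_on with
  | _ m ih =>
    match m, ih with
    | 0, _ =>
      rw [K_one]
      exact ⟨monic_one, by simp⟩
    | (m + 1), ih =>
      obtain ⟨h1, h2⟩ := ih m (by omega)
      have hK : K u i (m + 1 + 1) =
        X ^ (2 ^ (i + m)) * K u i (m + 1) + C (u ^ (2 ^ (i + m))) * K u i m := K_succ u i m
      have hp : 2 ^ i ≤ 2 ^ (i + m) := Nat.pow_le_pow_right (by norm_num) (by omega)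
      have hp1 : 1 ≤ 2 ^ i := Nat.one_le_two_pow
      have hm1 : (X ^ (2 ^ (i + m)) * K u i (m + 1)).Monic := (monic_X_pow _).mul h1
      have hd1 : (X ^ (2 ^ (i + m)) * K u i (m + 1)).natDegree = 2 ^ (i + (m + 1)) - 2 ^ i := by
        rw [(monic_X_pow _).natDegree_mul h1, natDegree_X_pow, h2]
        have : 2 ^ (i + (m + 1)) = 2 ^ (i + m) + 2 ^ (i + m) := by ring
        omega
      have hlt : (C (u ^ (2 ^ (i + m))) * K u i m).degree <
          (X ^ (2 ^ (i + m)) * K u i (m + 1)).degree := by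
        have hne : X ^ (2 ^ (i + m)) * K u i (m + 1) ≠ 0 := hm1.ne_zero
        rw [degree_eq_natDegree hne, hd1]
        have hle : (C (u ^ (2 ^ (i + m))) * K u i m).degree ≤ (K u i m).degree := by
          rw [← smul_eq_C_mul]
          exact degree_smul_le _ _
        refine lt_of_le_of_lt hle ?_
        rcases m with _ | m
        · rw [K_zero, degree_zero]
          exact WithBot.bot_lt_coe _
        · obtain ⟨h3, h4⟩ := ih m (by omega)
          rw [degree_eq_natDegree h3.ne_zero, h4]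
          have h5 : 2 ^ (i + m) < 2 ^ (i + (m + 1 + 1)) :=
            Nat.pow_lt_pow_right (by norm_num) (by omega)
          have h6 : 2 ^ i ≤ 2 ^ (i + m) := Nat.pow_le_pow_right (by norm_num) (by omega)
          exact_mod_cast (by omega : 2 ^ (i + m) - 2 ^ i < 2 ^ (i + (m + 1 + 1)) - 2 ^ i)
      rw [hK]
      refine ⟨hm1.add_of_left hlt, ?_⟩
      rw [natDegree_add_eq_left_of_degree_lt hlt, hd1]

theorem two_pow_inj {i j i' j' : ℕ} (h : i + 2 ≤ j) (h' : i' + 2 ≤ j')
    (he : 2 ^ (j - 1) - 2 ^ i = 2 ^ (j' - 1) - 2 ^ i') : i = i' ∧ j = j' := by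
  have key : ∀ {i j i' j' : ℕ}, i + 2 ≤ j → i' + 2 ≤ j' →
      2 ^ (j - 1) - 2 ^ i = 2 ^ (j' - 1) - 2 ^ i' → ¬ j < j' := by
    intro i j i' j' h h' he hlt
    have h1 : 2 ^ (j - 1) ≤ 2 ^ (j' - 2) := Nat.pow_le_pow_right (by norm_num) (by omega)
    have h2 : 2 ^ i' ≤ 2 ^ (j' - 2) := Nat.pow_le_pow_right (by norm_num) (by omega)
    have h3 : 2 ^ (j' - 1) = 2 * 2 ^ (j' - 2) := by
      rw [← pow_succ']
      congr 1
      omega
    have h4 : 0 < 2 ^ i := by positivity
    have h5 : 0 < 2 ^ (j - 1) := by positivity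
    omega
  have hj : j = j' := by
    have h1 := key h h' he
    have h2 := key h' h he.symm
    omega
  subst hj
  refine ⟨?_, rfl⟩
  have h1 : 2 ^ i ≤ 2 ^ (j - 1) := Nat.pow_le_pow_right (by norm_num) (by omega)
  have h2 : 2 ^ i' ≤ 2 ^ (j - 1) := Nat.pow_le_pow_right (by norm_num) (by omega)
  exact Nat.pow_right_injective (le_refl 2) (by simp only; omega)

/-- sums over pairs -/
theorem sum_pairs {A : Type} [AddCommMonoid A] (g : ℕ → ℕ → A) (N : ℕ) :
    ∑ i ∈ range N, ∑ j ∈ range N, g i j =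
      ∑ j ∈ range N, (g j j + ∑ i ∈ range j, (g i j + g j i)) := by
  induction N with
  | zero => simp
  | succ N ih =>
    have h1 : ∑ i ∈ range N, ∑ j ∈ range (N + 1), g i j =
        ∑ i ∈ range N, ∑ j ∈ range N, g i j + ∑ i ∈ range N, g i N := by
      rw [← sum_add_distrib]
      exact sum_congr rfl fun i _ ↦ sum_range_succ _ _
    have h2 : ∑ i ∈ range (N + 1), ∑ j ∈ range (N + 1), g i j =
        ∑ i ∈ range N, ∑ j ∈ range (N + 1), g i j + ∑ j ∈ range (N + 1), g N j :=
      sum_range_succ _ _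
    have h3 : ∑ j ∈ range (N + 1), g N j = ∑ j ∈ range N, g N j + g N N := sum_range_succ _ _
    have h4 : ∑ j ∈ range (N + 1), (g j j + ∑ i ∈ range j, (g i j + g j i)) =
        ∑ j ∈ range N, (g j j + ∑ i ∈ range j, (g i j + g j i)) +
          (g N N + ∑ i ∈ range N, (g i N + g N i)) := sum_range_succ _ _
    rw [h2, h1, h3, h4, ← ih, sum_add_distrib]
    abel

/-- the polynomial of a system of coefficients -/
noncomputable def R (u : F) (τ : ℕ → ℕ → F) (N : ℕ) : F[X] :=
  ∑ j ∈ range N, ∑ i ∈ range j, C (τ i j * u ^ (2 ^ i)) * K u i (j - i)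

theorem R_natDegree (u : F) (τ : ℕ → ℕ → F) (N : ℕ) :
    (R u τ (N + 2)).natDegree ≤ 2 ^ N - 1 := by
  unfold R
  refine natDegree_sum_le_of_forall_le _ _ fun j hj ↦ ?_
  refine natDegree_sum_le_of_forall_le _ _ fun i hi ↦ ?_
  have hj' := mem_range.mp hj
  have hi' := mem_range.mp hi
  refine (natDegree_C_mul_le _ _).trans ?_
  obtain ⟨m, hm⟩ : ∃ m, j - i = m + 1 := ⟨j - i - 1, by omega⟩
  rw [hm, (K_monic u i m).2]
  have h1 : 2 ^ (i + m) ≤ 2 ^ N := Nat.pow_le_pow_right (by norm_num) (by omega)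
  have h2 : 1 ≤ 2 ^ i := Nat.one_le_two_pow
  omega

theorem R_indep {u : F} (hu : u ≠ 0) {τ : ℕ → ℕ → F} {N : ℕ} (h : R u τ N = 0) :
    ∀ i j, i + 2 ≤ j → j < N → τ i j = 0 := by
  classical
  by_contra hcon
  push Not at hcon
  obtain ⟨i1, j1, h1, h2, h3⟩ := hcon
  let S : Finset (ℕ × ℕ) := ((range N) ×ˢ (range N)).filter
    (fun p ↦ p.1 + 2 ≤ p.2 ∧ τ p.1 p.2 ≠ 0)
  have hS : S.Nonempty := by
    refine ⟨(i1, j1), ?_⟩
    simp only [S, mem_filter, mem_product, mem_range]
    exact ⟨⟨by omega, h2⟩, h1, h3⟩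
  obtain ⟨⟨i0, j0⟩, hp, hmax⟩ := exists_max_image S (fun p ↦ 2 ^ (p.2 - 1) - 2 ^ p.1) hS
  simp only [S, mem_filter, mem_product, mem_range] at hp
  obtain ⟨⟨hi0, hj0⟩, hij, hτ⟩ := hp
  set d := 2 ^ (j0 - 1) - 2 ^ i0 with hd
  have hdpos : 0 < d := by
    have : 2 ^ i0 < 2 ^ (j0 - 1) := Nat.pow_lt_pow_right (by norm_num) (by omega)
    omega
  have hcoef : (R u τ N).coeff d = τ i0 j0 * u ^ (2 ^ i0) := by
    unfold R
    rw [finsetSum_coeff, sum_eq_single j0, finsetSum_coeff, sum_eq_single i0]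
    · obtain ⟨m, hm⟩ : ∃ m, j0 - i0 = m + 1 := ⟨j0 - i0 - 1, by omega⟩
      rw [coeff_C_mul, hm]
      obtain ⟨k1, k2⟩ := K_monic u i0 m
      have e : d = (K u i0 (m + 1)).natDegree := by
        rw [k2, hd]
        congr 2
        omega
      rw [e]
      have k3 : (K u i0 (m + 1)).coeff (K u i0 (m + 1)).natDegree = 1 := k1
      rw [k3, mul_one]
    · intro i hi hne
      have hi' := mem_range.mp hi
      rw [coeff_C_mul]
      obtain ⟨m, hm⟩ : ∃ m, j0 - i = m + 1 := ⟨j0 - i - 1, by omega⟩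
      by_cases hz : τ i j0 = 0
      · rw [hz, zero_mul, zero_mul]
      rw [hm, coeff_eq_zero_of_natDegree_lt, mul_zero]
      rw [(K_monic u i m).2]
      by_cases h2' : i + 2 ≤ j0
      · have hle : 2 ^ (j0 - 1) - 2 ^ i ≤ d := by
          refine hmax (i, j0) ?_
          simp only [S, mem_filter, mem_product, mem_range]
          exact ⟨⟨by omega, hj0⟩, h2', hz⟩
        have hne' : 2 ^ (j0 - 1) - 2 ^ i ≠ d := by
          intro he
          exact hne (two_pow_inj h2' hij he).1
        have e : i + m = j0 - 1 := by omega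
        rw [e]
        omega
      · have e : m = 0 := by omega
        subst e
        simp only [add_zero, Nat.sub_self]
        exact hdpos
    · intro hni
      exact absurd (mem_range.mpr (by omega)) hni
    · intro j hj hne
      rw [finsetSum_coeff]
      refine sum_eq_zero fun i hi ↦ ?_
      have hj' := mem_range.mp hj
      have hi' := mem_range.mp hi
      rw [coeff_C_mul]
      obtain ⟨m, hm⟩ : ∃ m, j - i = m + 1 := ⟨j - i - 1, by omega⟩
      by_cases hz : τ i j = 0
      · rw [hz, zero_mul, zero_mul]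
      rw [hm, coeff_eq_zero_of_natDegree_lt, mul_zero]
      rw [(K_monic u i m).2]
      by_cases h2' : i + 2 ≤ j
      · have hle : 2 ^ (j - 1) - 2 ^ i ≤ d := by
          refine hmax (i, j) ?_
          simp only [S, mem_filter, mem_product, mem_range]
          exact ⟨⟨by omega, hj'⟩, h2', hz⟩
        have hne' : 2 ^ (j - 1) - 2 ^ i ≠ d := by
          intro he
          exact hne (two_pow_inj h2' hij he).2
        have e : i + m = j - 1 := by omega
        rw [e]
        omega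
      · have e : m = 0 := by omega
        subst e
        simp only [add_zero, Nat.sub_self]
        exact hdpos
    · intro hnj
      exact absurd (mem_range.mpr hj0) hnj
  rw [h, coeff_zero] at hcoef
  rcases mul_eq_zero.mp hcoef.symm with h5 | h5
  · exact hτ h5
  · exact hu (pow_eq_zero_iff (by positivity) |>.mp h5)

end Cont

end Pool.Agent.Lib.MP_eacabd_co
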