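import Mathlib

/-!
Switching of the cube function, part 5: the number of planes `{0, a, b, a + b}` with
`a b (a + b) = u`.
-/

set_option autoImplicit false

namespace Pool.Agent.Lib.MP_eacabd_co

open Finset Polynomial

section Count

variable {F : Type} [Field F] [Fintype F] [DecidableEq F] [CharP F 2]

/-- the map `t ↦ t^2 + t` -/
def asm (F : Type) [Field F] [CharP F 2] : F →+ F where
  toFun x := x ^ 2 + x
  map_zero' := by simp
  map_add' x y := by
    rw [CharTwo.add_sq]
    ring

/-- its image -/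
def HH (F : Type) [Field F] [CharP F 2] : AddSubgroup F := (asm F).range

theorem mem_HH {x : F} : x ∈ HH F ↔ ∃ s : F, s ^ 2 + s = x := Iff.rfl

theorem asm_ker : Nat.card (asm F).ker = 2 := by
  have e : ((asm F).ker : Set F) = {0, 1} := by
    ext x
    simp only [SetLike.mem_coe, AddMonoidHom.mem_ker, Set.mem_insert_iff, Set.mem_singleton_iff]
    show x ^ 2 + x = 0 ↔ _
    have : x ^ 2 + x = x * (x + 1) := by ring
    rw [this, mul_eq_zero, CharTwo.add_eq_zero]
  have : Nat.card (asm F).ker = ((asm F).ker : Set F).ncard := rfl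
  rw [this, e, Set.ncard_pair zero_ne_one]

theorem HH_index : (HH F).index = 2 := by
  have h1 : (asm F).ker.index = Nat.card (asm F).range := AddSubgroup.index_ker _
  have h2 := (asm F).ker.index_mul_card
  have h3 := (HH F).index_mul_card
  have h4 : Nat.card (HH F) = Nat.card (asm F).range := rfl
  rw [asm_ker, h1] at h2
  rw [h4, ← h2] at h3
  have h5 : 0 < Nat.card (asm F).range := Nat.card_pos
  have h6 : (HH F).index * Nat.card (asm F).range = 2 * Nat.card (asm F).range := by
    rw [h3, mul_comm]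
  exact Nat.eq_of_mul_eq_mul_right h5 h6

open Classical in
/-- the character -/
noncomputable def ε (x : F) : ℤ := if x ∈ HH F then 1 else -1

omit [Fintype F] [DecidableEq F] in
theorem ε_pos {x : F} (h : x ∈ HH F) : ε x = 1 := by simp [ε, h]

omit [Fintype F] [DecidableEq F] in
theorem ε_neg {x : F} (h : x ∉ HH F) : ε x = -1 := by simp [ε, h]

omit [Fintype F] [DecidableEq F] in
theorem ε_zero : ε (0 : F) = 1 := ε_pos (HH F).zero_mem

theorem ε_add (x y : F) : ε (x + y) = ε x * ε y := by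
  have h := AddSubgroup.add_mem_iff_of_index_two (HH_index (F := F)) (a := x) (b := y)
  by_cases hx : x ∈ HH F <;> by_cases hy : y ∈ HH F
  · rw [ε_pos hx, ε_pos hy, ε_pos (h.mpr (by simp [hx, hy]))]; ring
  · rw [ε_pos hx, ε_neg hy, ε_neg (fun hc ↦ hy (by have := h.mp hc; simpa [hx] using this))]; ring
  · rw [ε_neg hx, ε_pos hy, ε_neg (fun hc ↦ hx (by have := h.mp hc; simpa [hy] using this))]; ring
  · rw [ε_neg hx, ε_neg hy, ε_pos (h.mpr (by simp [hx, hy]))]; ring

omit [Fintype F] [DecidableEq F] in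
theorem ε_abs (x : F) : |ε x| ≤ 1 := by
  by_cases hx : x ∈ HH F
  · rw [ε_pos hx]; norm_num
  · rw [ε_neg hx]; norm_num

theorem ε_sq (x : F) : ε (x ^ 2) = ε x := by
  have h1 : ε (x ^ 2 + x) = 1 := ε_pos ⟨x, rfl⟩
  rw [ε_add] at h1
  by_cases hx : x ∈ HH F
  · rw [ε_pos hx] at h1 ⊢; linarith
  · rw [ε_neg hx] at h1 ⊢; linarith

theorem exists_notMem : ∃ w : F, w ∉ HH F := by
  by_contra hcon
  push Not at hcon
  have : HH F = ⊤ := by
    rw [AddSubgroup.eq_top_iff']
    exact hcon
  have h := HH_index (F := F)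
  rw [this, AddSubgroup.index_top] at h
  exact absurd h (by norm_num)

omit [Fintype F] [DecidableEq F] in
theorem sq_surj [Finite F] (y : F) : ∃ x : F, x ^ 2 = y := by
  have : Function.Injective (fun x : F ↦ x ^ 2) := by
    intro a b h
    exact frobenius_inj F 2 h
  exact (Finite.injective_iff_surjective.mp this) y

/-- the number of solutions of `t^2 + t = s` -/
theorem card_as (s : F) : ((univ.filter (fun t : F ↦ t ^ 2 + t = s)).card : ℤ) = 1 + ε s := by
  by_cases hs : s ∈ HH F
  · obtain ⟨t0, ht0⟩ := mem_HH.mp hs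
    have e : univ.filter (fun t : F ↦ t ^ 2 + t = s) = {t0, t0 + 1} := by
      ext t
      simp only [mem_filter, mem_univ, true_and, mem_insert, mem_singleton]
      constructor
      · intro h
        have h1 : (t + t0) * (t + t0 + 1) = 0 := by
          have : (t + t0) * (t + t0 + 1) = (t ^ 2 + t) + (t0 ^ 2 + t0) + 2 * (t * t0) := by ring
          rw [this, h, ht0, CharTwo.add_self_eq_zero, CharTwo.two_eq_zero]
          ring
        rcases mul_eq_zero.mp h1 with h2 | h2
        · left; exact CharTwo.add_eq_zero.mp h2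
        · right
          rw [add_assoc] at h2
          exact CharTwo.add_eq_zero.mp h2
      · rintro (rfl | rfl)
        · exact ht0
        · have : (t0 + 1) ^ 2 + (t0 + 1) = t0 ^ 2 + t0 + 2 * (t0 + 1) := by ring
          rw [this, ht0, CharTwo.two_eq_zero]
          ring
    rw [e, card_pair (by simp), ε_pos hs]
    norm_num
  · have e : univ.filter (fun t : F ↦ t ^ 2 + t = s) = ∅ := by
      rw [filter_eq_empty_iff]
      intro t _ h
      exact hs ⟨t, h⟩
    rw [e, ε_neg hs]
    norm_num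

/-- the bad pairs -/
def Bad (u : F) : Finset (F × F) := univ.filter (fun p ↦ p.1 * p.2 * (p.1 + p.2) = u)

/-- the cubic sum -/
noncomputable def W (u : F) : ℤ := ∑ a : F, ε (u * a ^ 3)

theorem card_fib {u : F} (hu : u ≠ 0) (a : F) :
    ((univ.filter (fun b : F ↦ a * b * (a + b) = u)).card : ℤ) =
      if a = 0 then 0 else 1 + ε (u * (a⁻¹) ^ 3) := by
  split_ifs with h
  · subst h
    have : univ.filter (fun b : F ↦ 0 * b * (0 + b) = u) = ∅ := by
      rw [filter_eq_empty_iff]
      intro b _ hb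
      apply hu
      rw [← hb]
      ring
    rw [this]
    norm_num
  · rw [← card_as]
    have e : (univ.filter (fun b : F ↦ a * b * (a + b) = u)).card =
        (univ.filter (fun t : F ↦ t ^ 2 + t = u * (a⁻¹) ^ 3)).card := by
      refine card_bij' (fun b _ ↦ a⁻¹ * b) (fun t _ ↦ a * t) ?_ ?_ ?_ ?_
      · intro b hb
        simp only [mem_filter, mem_univ, true_and] at hb ⊢
        rw [← hb]
        field_simp
        ring
      · intro t ht
        simp only [mem_filter, mem_univ, true_and] at ht ⊢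
        have : a * (a * t) * (a + a * t) = a ^ 3 * (t ^ 2 + t) := by ring
        rw [this, ht]
        field_simp
      · intro b _
        field_simp
      · intro t _
        field_simp
    exact_mod_cast e

theorem card_Bad {u : F} (hu : u ≠ 0) :
    ((Bad u).card : ℤ) = Fintype.card F - 2 + W u := by
  have e1 : (Bad u).card = ∑ a : F, (univ.filter (fun b : F ↦ a * b * (a + b) = u)).card := by
    unfold Bad
    rw [card_filter, ← univ_product_univ, sum_product]
    exact sum_congr rfl fun a _ ↦ (card_filter _ _).symm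
  rw [e1]
  push_cast
  rw [sum_congr rfl fun a _ ↦ card_fib hu a]
  have e2 : ∀ a : F, (if a = 0 then (0 : ℤ) else 1 + ε (u * (a⁻¹) ^ 3)) =
      (1 + ε (u * (a⁻¹) ^ 3)) - (if a = 0 then (2 : ℤ) else 0) := by
    intro a
    split_ifs with h
    · subst h
      have : u * (0 : F)⁻¹ ^ 3 = 0 := by simp
      rw [this, ε_zero]
      norm_num
    · ring
  rw [sum_congr rfl fun a _ ↦ e2 a, sum_sub_distrib, sum_add_distrib]
  have e3 : ∑ a : F, ε (u * (a⁻¹) ^ 3) = W u := by
    unfold W
    exact Fintype.sum_equiv (Function.Involutive.toPerm (fun x : F ↦ x⁻¹) inv_involutive) _ _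
      fun a ↦ rfl
  rw [e3]
  simp only [sum_const, card_univ, sum_ite_eq', mem_univ, if_true]
  simp only [nsmul_eq_mul, mul_one]
  ring

theorem sum_hom (g : F → ℤ) (hg : ∀ x y, g (x + y) = g x * g y) (x0 : F) (h0 : g x0 ≠ 1) :
    ∑ x : F, g x = 0 := by
  have e : ∑ x : F, g x = g x0 * ∑ x : F, g x := by
    rw [mul_sum]
    have : ∑ x : F, g x = ∑ x : F, g (x + x0) :=
      (Fintype.sum_equiv (Equiv.addRight x0) _ _ fun x ↦ rfl).symm
    rw [this]
    exact sum_congr rfl fun x _ ↦ by rw [hg, mul_comm]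
  have : (g x0 - 1) * ∑ x : F, g x = 0 := by linarith
  rcases mul_eq_zero.mp this with h | h
  · exact absurd (by linarith) h0
  · exact h

theorem W_sq {u : F} (hu : u ≠ 0) : W u ^ 2 ≤ 4 * Fintype.card F := by
  classical
  have two : (2 : F) = 0 := CharTwo.two_eq_zero
  have e1 : W u ^ 2 = ∑ h : F, ε (u * h ^ 3) * ∑ a : F, ε (u * (a ^ 2 * h + a * h ^ 2)) := by
    have e2 : W u ^ 2 = ∑ a : F, ∑ h : F, ε (u * a ^ 3) * ε (u * (a + h) ^ 3) := by
      rw [pow_two]
      unfold W
      rw [sum_mul_sum]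
      refine sum_congr rfl fun a _ ↦ ?_
      exact (Fintype.sum_equiv (Equiv.addLeft a) _ _ fun h ↦ rfl).symm
    rw [e2, sum_comm]
    refine sum_congr rfl fun h _ ↦ ?_
    rw [mul_sum]
    refine sum_congr rfl fun a _ ↦ ?_
    rw [← ε_add, ← ε_add]
    congr 1
    linear_combination (u * (a ^ 3 + a ^ 2 * h + a * h ^ 2)) * two
  have e3 : ∀ h : F, h ∉ insert 0 (nthRoots 3 u⁻¹).toFinset →
      ∑ a : F, ε (u * (a ^ 2 * h + a * h ^ 2)) = 0 := by
    intro h hh
    rw [mem_insert, Multiset.mem_toFinset, mem_nthRoots (by norm_num)] at hh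
    push Not at hh
    obtain ⟨h0, h3⟩ := hh
    have hne : u * h + u ^ 2 * h ^ 4 ≠ 0 := by
      intro hc
      have : u * h * (1 + u * h ^ 3) = 0 := by rw [← hc]; ring
      rcases mul_eq_zero.mp this with h4 | h4
      · exact (mul_ne_zero hu h0) h4
      · apply h3
        have : u * h ^ 3 = 1 := (CharTwo.add_eq_zero.mp h4).symm
        field_simp
        rw [mul_comm]
        exact this
    obtain ⟨w, hw⟩ := exists_notMem (F := F)
    obtain ⟨x0, hx0⟩ := sq_surj (w / (u * h + u ^ 2 * h ^ 4))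
    refine sum_hom (fun a ↦ ε (u * (a ^ 2 * h + a * h ^ 2))) ?_ x0 ?_
    · intro x y
      show ε _ = ε _ * ε _
      rw [← ε_add]
      congr 1
      linear_combination (u * x * y * h) * two
    · show ε _ ≠ 1
      have e4 : ε (u * (x0 ^ 2 * h + x0 * h ^ 2)) = ε w := by
        have e5 : u * (x0 ^ 2 * h + x0 * h ^ 2) = u * h * x0 ^ 2 + u * h ^ 2 * x0 := by ring
        have e6 : ε (u * h ^ 2 * x0) = ε (u ^ 2 * h ^ 4 * x0 ^ 2) := by
          rw [← ε_sq (u * h ^ 2 * x0)]
          congr 1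
          ring
        rw [e5, ε_add, e6, ← ε_add]
        congr 1
        have e7 : u * h * x0 ^ 2 + u ^ 2 * h ^ 4 * x0 ^ 2 = (u * h + u ^ 2 * h ^ 4) * x0 ^ 2 := by
          ring
        rw [e7, hx0, mul_div_cancel₀ _ hne]
      rw [e4, ε_neg hw]
      norm_num
  have e4 : ∀ h : F, ε (u * h ^ 3) * ∑ a : F, ε (u * (a ^ 2 * h + a * h ^ 2)) ≤
      Fintype.card F := by
    intro h
    have h1 : |∑ a : F, ε (u * (a ^ 2 * h + a * h ^ 2))| ≤ Fintype.card F := by
      refine (abs_sum_le_sum_abs _ _).trans ?_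
      refine (sum_le_sum fun a _ ↦ ε_abs _).trans ?_
      simp
    refine (le_abs_self _).trans ?_
    rw [abs_mul]
    calc |ε (u * h ^ 3)| * |∑ a : F, ε (u * (a ^ 2 * h + a * h ^ 2))|
        ≤ 1 * |∑ a : F, ε (u * (a ^ 2 * h + a * h ^ 2))| :=
          mul_le_mul_of_nonneg_right (ε_abs _) (abs_nonneg _)
      _ ≤ _ := by rw [one_mul]; exact h1
  rw [e1, ← sum_subset (subset_univ (insert 0 (nthRoots 3 u⁻¹).toFinset))]
  · refine (sum_le_sum fun h _ ↦ e4 h).trans ?_
    rw [sum_const, nsmul_eq_mul]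
    have h5 : (insert 0 (nthRoots 3 u⁻¹).toFinset).card ≤ 4 := by
      refine (card_insert_le _ _).trans ?_
      have h6 := Multiset.toFinset_card_le (nthRoots 3 u⁻¹)
      have h7 := card_nthRoots 3 u⁻¹
      omega
    have h8 : ((insert 0 (nthRoots 3 u⁻¹).toFinset).card : ℤ) ≤ 4 := by exact_mod_cast h5
    exact mul_le_mul_of_nonneg_right h8 (by positivity)
  · intro h _ hh
    rw [e3 h hh, mul_zero]

theorem card_fiber {u : F} (hu : u ≠ 0) (c : F) :
    ((Bad u).filter (fun p ↦ p.1 ^ 2 + p.1 * p.2 + p.2 ^ 2 = c)).card ≤ 6 := by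
  classical
  have two : (2 : F) = 0 := CharTwo.two_eq_zero
  let p : F[X] := X ^ 3 + (C c * X + C u)
  have hdeg : (C c * X + C u).degree < ((3 : ℕ) : WithBot ℕ) :=
    lt_of_le_of_lt degree_linear_le (by exact_mod_cast (by norm_num : 1 < 3))
  have hp0 : p.Monic := monic_X_pow_add hdeg
  have hpd : p.natDegree = 3 := by
    have h : p.degree = ((3 : ℕ) : WithBot ℕ) := by
      show degree (X ^ 3 + (C c * X + C u)) = _
      rw [degree_add_eq_left_of_degree_lt (by rw [degree_X_pow]; exact hdeg), degree_X_pow]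
    exact natDegree_eq_of_degree_eq_some h
  have h1 : p.roots.toFinset.card ≤ 3 := by
    refine (Multiset.toFinset_card_le _).trans ?_
    rw [← hpd]
    exact card_roots' p
  have h2 : (Bad u).filter (fun p ↦ p.1 ^ 2 + p.1 * p.2 + p.2 ^ 2 = c) ⊆ p.roots.toFinset.offDiag := by
    intro q hq
    rw [mem_filter, Bad, mem_filter] at hq
    obtain ⟨⟨_, hq1⟩, hq2⟩ := hq
    rw [mem_offDiag, Multiset.mem_toFinset, Multiset.mem_toFinset, mem_roots hp0.ne_zero,
      mem_roots hp0.ne_zero]
    refine ⟨?_, ?_, ?_⟩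
    · show eval q.1 (X ^ 3 + (C c * X + C u)) = 0
      simp only [eval_add, eval_mul, eval_pow, eval_X, eval_C]
      rw [← hq1, ← hq2]
      linear_combination (q.1 ^ 3 + q.1 ^ 2 * q.2 + q.1 * q.2 ^ 2) * two
    · show eval q.2 (X ^ 3 + (C c * X + C u)) = 0
      simp only [eval_add, eval_mul, eval_pow, eval_X, eval_C]
      rw [← hq1, ← hq2]
      linear_combination (q.2 ^ 3 + q.1 ^ 2 * q.2 + q.1 * q.2 ^ 2) * two
    · intro he
      apply hu
      rw [← hq1, he, CharTwo.add_self_eq_zero, mul_zero]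
  refine (card_le_card h2).trans ?_
  rw [offDiag_card]
  have h3 : ∀ m : ℕ, m ≤ 3 → m * m - m ≤ 6 := by
    intro m hm
    interval_cases m <;> norm_num
  exact h3 _ h1

/-- the values of the parameter `c` -/
def CC (u : F) : Finset F := (Bad u).image (fun p ↦ p.1 ^ 2 + p.1 * p.2 + p.2 ^ 2)

theorem card_CC {n : ℕ} (hn : 5 ≤ n) (hF : Fintype.card F = 2 ^ n) {u : F} (hu : u ≠ 0) :
    2 ^ (n - 3) ≤ (CC u).card := by
  have h1 : (Bad u).card ≤ 6 * (CC u).card :=
    card_le_mul_card_image (Bad u) 6 fun c _ ↦ card_fiber hu c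
  have h2 := card_Bad hu
  have h3 := W_sq hu
  by_contra hcon
  push Not at hcon
  obtain ⟨r, hr, hr4⟩ : ∃ r : ℕ, 2 ^ (n - 3) = r ∧ 4 ≤ r :=
    ⟨2 ^ (n - 3), rfl, by
      calc 4 = 2 ^ 2 := rfl
        _ ≤ 2 ^ (n - 3) := Nat.pow_le_pow_right (by norm_num) (by omega)⟩
  have hq : Fintype.card F = 8 * r := by
    rw [hF, ← hr]
    have : n = 3 + (n - 3) := by omega
    conv_lhs => rw [this]
    rw [pow_add]
    norm_num
  rw [hr] at hcon
  have h4 : ((Bad u).card : ℤ) ≤ 6 * (r : ℤ) - 6 := by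
    have : (Bad u).card + 6 ≤ 6 * r := by omega
    have : (((Bad u).card + 6 : ℕ) : ℤ) ≤ ((6 * r : ℕ) : ℤ) := by exact_mod_cast this
    push_cast at this
    linarith
  rw [h2, hq] at h4
  rw [hq] at h3
  push_cast at h3 h4
  have hr' : (4 : ℤ) ≤ r := by exact_mod_cast hr4
  have h5 : W u ≤ -(2 * (r : ℤ) + 4) := by linarith
  nlinarith [sq_nonneg (W u + (2 * (r : ℤ) + 4))]

end Count

end Pool.Agent.Lib.MP_eacabd_co
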