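import Pool.Agent.Lib.MP_eacabd_co.Deriv
import Pool.Agent.Lib.MP_eacabd_co.Tri
import Pool.Agent.Lib.MP_eacabd_co.Cont
import Pool.Agent.Lib.MP_eacabd_co.Count

/-!
Switching of the cube function, part 6: the main argument.
-/

set_option autoImplicit false

namespace Pool.Agent.Lib.MP_eacabd_co

open Finset Polynomial

section Main

variable {F : Type} [Field F] [Fintype F] [DecidableEq F] [CharP F 2]

theorem eval_R {n : ℕ} (hF : Fintype.card F = 2 ^ (n + 1)) {u : F} {T : F → F → F → F}
    (hT : Tri T) {a b : F} (hu : a * b * (a + b) = u) (h : ∀ z, T a b z = 0) :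
    (R u (fun i j ↦ t T i j n) n).eval (a ^ 2 + a * b + b ^ 2) = 0 := by
  have h1 := cf_eq hF hT a b n
  have h2 : cf (T a b) n = 0 := by
    unfold cf
    refine sum_eq_zero fun z _ ↦ ?_
    rw [h, zero_mul]
  have z1 : ∀ j, t T n j n = 0 := by
    intro j
    rw [t_s23 hT, t_alt hT]
  have z2 : ∀ i, t T i n n = 0 := by
    intro i
    rw [t_s12 hT, z1]
  rw [h2, sum_range_succ] at h1
  have h3 : ∑ j ∈ range (n + 1), t T n j n * a ^ (2 ^ n) * b ^ (2 ^ j) = 0 := by
    refine sum_eq_zero fun j _ ↦ ?_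
    rw [z1]
    ring
  rw [h3, add_zero] at h1
  have h4 : ∀ i, ∑ j ∈ range (n + 1), t T i j n * a ^ (2 ^ i) * b ^ (2 ^ j) =
      ∑ j ∈ range n, t T i j n * a ^ (2 ^ i) * b ^ (2 ^ j) := by
    intro i
    rw [sum_range_succ, z2]
    ring
  rw [sum_congr rfl fun i _ ↦ h4 i,
    sum_pairs (fun i j ↦ t T i j n * a ^ (2 ^ i) * b ^ (2 ^ j)) n] at h1
  unfold R
  rw [eval_finsetSum, h1]
  refine sum_congr rfl fun j _ ↦ ?_
  rw [t_alt hT, eval_finsetSum]
  have h5 : ∀ i ∈ range j, eval (a ^ 2 + a * b + b ^ 2)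
      (C (t T i j n * u ^ 2 ^ i) * K u i (j - i)) =
      t T i j n * a ^ (2 ^ i) * b ^ (2 ^ j) + t T j i n * a ^ (2 ^ j) * b ^ (2 ^ i) := by
    intro i hi
    have hi' := mem_range.mp hi
    have h6 := K_eval hu rfl i (j - i)
    have e : i + (j - i) = j := by omega
    rw [e] at h6
    rw [eval_mul, eval_C, mul_assoc, ← h6, t_s12 hT j i]
    ring
  rw [sum_congr rfl h5]
  ring

theorem pow_two_pow_eq_zero {a : F} {s : ℕ} (h : a ^ (2 ^ s) = 0) : a = 0 :=
  (pow_eq_zero_iff (by positivity)).mp h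

theorem tri_zero {n : ℕ} (hn : 4 ≤ n) (hF : Fintype.card F = 2 ^ (n + 1)) {u : F} (hu : u ≠ 0)
    {T : F → F → F → F} (hT : Tri T)
    (hbad : ∀ a b, a * b * (a + b) = u → ∀ z, T a b z = 0) (x y z : F) : T x y z = 0 := by
  have hR : R u (fun i j ↦ t T i j n) n = 0 := by
    refine eq_zero_of_natDegree_lt_card_of_eval_eq_zero' _ (CC u) ?_ ?_
    · intro c hc
      unfold CC at hc
      rw [mem_image] at hc
      obtain ⟨⟨a, b⟩, hp, rfl⟩ := hc
      rw [Bad, mem_filter] at hp
      exact eval_R hF hT hp.2 (hbad a b hp.2)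
    · have h1 := card_CC (by omega : 5 ≤ n + 1) hF hu
      obtain ⟨N, rfl⟩ : ∃ N, n = N + 2 := ⟨n - 2, by omega⟩
      have h2 := R_natDegree u (fun i j ↦ t T i j (N + 2)) N
      have e : N + 2 + 1 - 3 = N := by omega
      rw [e] at h1
      have h3 : 0 < 2 ^ N := by positivity
      omega
  have hA : ∀ i j, i + 2 ≤ j → j < n → t T i j n = 0 := R_indep hu hR
  -- adjacent pairs
  have hB : ∀ i, i + 1 < n → t T i (i + 1) n = 0 := by
    intro i hi
    rcases Nat.eq_zero_or_pos i with rfl | hi0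
    · have h1 : t T 0 (0 + 1) n ^ (2 ^ n) = 0 := by
        rw [t_pow hT]
        have e1 : 0 + 1 + n = 0 + (n + 1) := by ring
        have e2 : n + n = (n - 1) + (n + 1) := by omega
        rw [e1, e2, t_per2 hF hT, t_per3 hF hT, zero_add, t_s12 hT, t_s23 hT]
        exact hA 0 (n - 1) (by omega) (by omega)
      exact pow_two_pow_eq_zero h1
    · have h1 : t T i (i + 1) n ^ (2 ^ (n - 1 - i)) = 0 := by
        rw [t_pow hT]
        have e1 : i + (n - 1 - i) = n - 1 := by omega
        have e2 : i + 1 + (n - 1 - i) = n := by omega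
        have e3 : n + (n - 1 - i) = (n - 2 - i) + (n + 1) := by omega
        rw [e1, e2, e3, t_per3 hF hT, t_s23 hT, t_s12 hT]
        exact hA (n - 2 - i) (n - 1) (by omega) (by omega)
      exact pow_two_pow_eq_zero h1
  have hC : ∀ i j, i < j → j < n → t T i j n = 0 := by
    intro i j hij hj
    rcases Nat.lt_or_ge (i + 1) j with h | h
    · exact hA i j (by omega) hj
    · have e : j = i + 1 := by omega
      rw [e]
      exact hB i (by omega)
  have hD : ∀ i < n + 1, ∀ j < n + 1, t T i j n = 0 := by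
    intro i hi j hj
    rcases Nat.lt_trichotomy i j with h | h | h
    · rcases Nat.lt_or_ge j n with h' | h'
      · exact hC i j h h'
      · have e : j = n := by omega
        rw [e, t_s12 hT, t_s23 hT, t_alt hT]
    · rw [h, t_alt hT]
    · rw [t_s12 hT]
      rcases Nat.lt_or_ge i n with h' | h'
      · exact hC j i h h'
      · have e : i = n := by omega
        rw [e, t_s12 hT, t_s23 hT, t_alt hT]
  have hE : ∀ i < 2 * (n + 1), ∀ j < 2 * (n + 1), t T i j n = 0 := by
    intro i hi j hj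
    have key : ∀ i < 2 * (n + 1), ∀ j < n + 1, t T i j n = 0 := by
      intro i hi j hj
      rcases Nat.lt_or_ge i (n + 1) with h | h
      · exact hD i h j hj
      · obtain ⟨i', rfl⟩ : ∃ i', i = i' + (n + 1) := ⟨i - (n + 1), by omega⟩
        rw [t_per hF]
        exact hD i' (by omega) j hj
    rcases Nat.lt_or_ge j (n + 1) with h | h
    · exact key i hi j h
    · obtain ⟨j', rfl⟩ : ∃ j', j = j' + (n + 1) := ⟨j - (n + 1), by omega⟩
      rw [t_per2 hF hT]
      exact key i hi j' (by omega)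
  refine eq_zero_of_t hF hT ?_ x y z
  intro i hi j hj k hk
  have h1 : t T i j k ^ (2 ^ (n - k)) = 0 := by
    rw [t_pow hT]
    have e : k + (n - k) = n := by omega
    rw [e]
    exact hE _ (by omega) _ (by omega)
  exact pow_two_pow_eq_zero h1

/-- idempotent valued functions whose second derivatives at the bad planes vanish -/
def M (u : F) (g : F → F) : Prop :=
  (∀ x, g x ^ 2 = g x) ∧ ∀ a b, a * b * (a + b) = u → D a (D b g) = 0

theorem D_sq {g : F → F} (h : ∀ x, g x ^ 2 = g x) (e x : F) : D e g x ^ 2 = D e g x := by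
  unfold D
  rw [CharTwo.add_sq, h, h]

theorem M_D {u : F} {g : F → F} (h : M u g) (e : F) : M u (D e g) := by
  refine ⟨D_sq h.1 e, ?_⟩
  intro a b hab
  rw [D_comm b e, D_comm a e, h.2 a b hab, D_of_zero]

theorem M_DL {u : F} {g : F → F} (h : M u g) (l : List F) : M u (DL l g) := by
  induction l with
  | nil => exact h
  | cons a l ih => exact M_D ih a

theorem step {n : ℕ} (hn : 4 ≤ n) (hF : Fintype.card F = 2 ^ (n + 1)) {u : F} (hu : u ≠ 0)
    {g : F → F} (hg : M u g) (h4 : ∀ w x y z, D w (D x (D y (D z g))) = 0) (x y z : F) :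
    D x (D y (D z g)) = 0 := by
  have hT : Tri (fun x y z ↦ D x (D y (D z g)) 0) := by
    refine ⟨?_, ?_, ?_, ?_, ?_⟩
    · intro x x' y z
      show D (x + x') (D y (D z g)) 0 = _
      rw [D_add, h4]
      simp
    · intro x y z
      show D x (D y (D z g)) 0 = D y (D x (D z g)) 0
      rw [D_comm]
    · intro x y z
      show D x (D y (D z g)) 0 = D x (D z (D y g)) 0
      rw [D_comm y z]
    · intro x z
      show D x (D x (D z g)) 0 = 0
      rw [D_self]
      rfl
    · intro x y z
      exact ((M_D (M_D (M_D hg z) y) x).1) 0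
  have hbad : ∀ a b, a * b * (a + b) = u → ∀ z, (fun x y z ↦ D x (D y (D z g)) 0) a b z = 0 := by
    intro a b hab z
    show D a (D b (D z g)) 0 = 0
    rw [D_comm b z, D_comm a z, hg.2 a b hab, D_of_zero]
    rfl
  have h0 : D x (D y (D z g)) 0 = 0 := tri_zero hn hF hu hT hbad x y z
  funext w
  have h5 : D w (D x (D y (D z g))) 0 = 0 := by
    rw [h4]
    rfl
  have h6 : D w (D x (D y (D z g))) 0 = D x (D y (D z g)) (0 + w) + D x (D y (D z g)) 0 := rfl
  rw [h5, h0, add_zero, zero_add] at h6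
  exact h6.symm

theorem down {n : ℕ} (hn : 4 ≤ n) (hF : Fintype.card F = 2 ^ (n + 1)) {u : F} (hu : u ≠ 0)
    {f : F → F} (hf : M u f) (k : ℕ) (h : ∀ l : List F, l.length = k + 4 → DL l f = 0) :
    ∀ l : List F, l.length = k + 3 → DL l f = 0 := by
  intro l hl
  match l, hl with
  | x :: y :: z :: l', hl =>
    have h1 : DL (x :: y :: z :: l') f = D x (D y (D z (DL l' f))) := rfl
    rw [h1]
    refine step hn hF hu (M_DL hf l') ?_ x y z
    intro w x y z
    have h2 : DL (w :: x :: y :: z :: l') f = D w (D x (D y (D z (DL l' f)))) := rfl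
    rw [← h2]
    refine h _ ?_
    simp only [List.length_cons] at hl ⊢
    omega

/-- the main theorem for Boolean functions -/
theorem bool_main {n : ℕ} (hn : 4 ≤ n) (hF : Fintype.card F = 2 ^ (n + 1)) {u : F} (hu : u ≠ 0)
    {f : F → F} (hf : M u f) (x y z : F) : D x (D y (D z f)) = 0 := by
  have key : ∀ k : ℕ, (∀ l : List F, l.length = k + 3 → DL l f = 0) →
      ∀ l : List F, l.length = 3 → DL l f = 0 := by
    intro k
    induction k with
    | zero => intro h; exact h
    | succ k ih =>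
      intro h
      exact ih (down hn hF hu hf k h)
  exact key (Fintype.card F) (fun l hl ↦ DL_long l (by omega) f) [x, y, z] rfl

end Main

end Pool.Agent.Lib.MP_eacabd_co
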